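import Pool.Agent.H74.EH.Glob

/-!
# Exponential hyperbolicity of the periodic points of `Ω`-stable diffeomorphisms

`V n = ℝⁿ`, `DiffM n N r = Diff^r(N)`; `OmegaStable n N r F`: all diffeomorphisms of a neighbourhood of
`F` in `Diff^r(N)` are conjugate to `F` on the nonwandering sets (for instance `F` structurally
stable). `ChartLip n N`: the distance of `N` is compatible with the smooth structure: charts `χ` of
the smooth structure whose image contains the unit ball are bi-Lipschitz on the ball of radius `1/2`
(for instance a Riemannian distance). `LipTo F m Γ`: `Γ` is a Lipschitz constant of `F^i` for all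
`|i| ≤ 2m`. `IsImm n e`: `e : N → ℝ^q` is a smooth immersion. `DN n f x`, `DE n e x`: the
derivatives. `QuantPer n e F m ε` (`Pool/Agent/H74/EH/Glob.lean`): the points fixed by `F^m` are
hyperbolic with the constant `ε`:

* `closing`: if `dist (F^m z) z < ε` then there is an `x` with `F^m x = x` and
  `ε dist (x, z) ≤ dist (F^m z, z)`;
* `separated`: different points fixed by `F^m` have distance at least `ε`;
* `multipliers`: all complex eigenvalues `lam` of `D(F^m)(x)`, `F^m x = x`, satisfy
  `|log |lam|| ≥ ε`;
* `robust`: `(1 + B) ∘ D(F^m)(x)`, `F^m x = x`, has no complex eigenvalue of modulus one, for all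
  linear maps `B` of `T_x N` of norm at most `ε` for the norm `|v| = |De(x) v|`.

Proof: in a chart, the displacements and the derivatives of the iterates of a point form an
approximate cocycle. If the return at the time `m` is exponentially fast then, the dimension being
finite, there is a scale `ρ ≥ exp (-C m)` at which the first return time `q` is isolated, and the
return at the time `q` is much closer than `ρ`; `q` divides `m`. By `Ω`-stability the derivative of
`F^q` is robustly hyperbolic (theorem `K4H47.IR.main` of the library). So it has no approximate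
eigenvalues on the unit circle, and by discrete Fourier analysis neither has the derivative of
`F^m`. Conclude by Newton's method.
-/

set_option autoImplicit false

open scoped Manifold ContDiff Topology

universe u

namespace Pool.Agent.Results.MP_4a0782_an.ExponentialHyperbolicity

open Pool.Agent.H718R2.G Pool.Agent.TH80.OMS Pool.Agent.Y368.CL Pool.Agent.K4H47.RH
  Pool.Agent.H74.EH

/-- There are UNIVERSAL exponents `a n k` such that for every closed `n`-manifold `N`, every
`2 ≤ r ≤ ∞` and every `Ω`-stable `F ∈ Diff^r(N)`: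

1. the points fixed by `F^m` are hyperbolic with the constant `c exp (-C m)`, for all `m ≥ 1`;
2. more precisely they are hyperbolic with the constant `c / Λ(m)^(a n k)`, `k ≤ r`, if `Λ m ≥ m` is a
   Lipschitz constant of all `F^i`, `|i| ≤ 2m`. -/
theorem result : ∃ a : ℕ → ℕ → ℕ, ∀ (n : ℕ) (N : Type u) [MetricSpace N] [CompactSpace N]
    [ChartedSpace (V n) N] [IsManifold (𝓡 n) ∞ N] (r : ℕ∞), 2 ≤ r → ChartLip n N →
    ∀ F : DiffM n N r, OmegaStable n N r F →
    (∃ C : ℝ, 0 < C ∧ ∀ (q : ℕ) (e : N → V q), IsImm n e → ∃ c : ℝ, 0 < c ∧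
      ∀ m : ℕ, 1 ≤ m → QuantPer n e F m (c * Real.exp (-(C * m)))) ∧
    ∀ Λ : ℕ → ℝ, (∀ m, LipTo F m (Λ m)) → (∀ m : ℕ, (m : ℝ) ≤ Λ m) →
      ∃ k : ℕ, (k : ℕ∞) ≤ r ∧ ∀ (q : ℕ) (e : N → V q), IsImm n e → ∃ c : ℝ, 0 < c ∧
        ∀ m : ℕ, 1 ≤ m → QuantPer n e F m (c / (Λ m) ^ a n k) :=
  ⟨fun n k => 4 * tE k n, fun _ _ _ _ _ _ _ hr hN F hF =>
    ⟨glob_exp hr hN F hF, fun Λ h1 h2 => glob hr hN F hF Λ h1 h2⟩⟩

end Pool.Agent.Results.MP_4a0782_an.ExponentialHyperbolicity
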