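import Pool.Agent.H74.PA.Fin4

/-!
# `Ω`-stable products satisfy Axiom A, in all classes `C^r`

`V n = ℝⁿ`, `DiffM n N r = Diff^r(N)`, with the strong (Whitney) `C^r` topology `strongTop n N r` (the
usual one, `N` being compact). `OmegaStable n N r F`: all diffeomorphisms of a neighbourhood of `F` in
`Diff^r(N)` are conjugate to `F` on the nonwandering sets. `SatAxiomA F`: `F` satisfies Axiom A, i.e. the
nonwandering set `Omega F` is a hyperbolic set and the periodic points are dense in it
(`AX/Defs.lean`). `IsProduct F f g`: `F ∘ Θ = Θ ∘ (f × g)` for some smooth diffeomorphism
`Θ : M × L → N`. `HasHorseshoe g`: `g` has an infinite compact invariant set on which it is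
expansive and chain transitive and has the periodic shadowing property
(`Pool/Agent/H74/PA/Horse.lean`).

Infinite basic sets (horseshoes) have these properties. They are proved for hyperbolic automorphisms
of tori in `Pool.Agent.H74.PA.Fin.torus`; so `f × A`, with `A` such an automorphism and `f` ARBITRARY,
satisfies Axiom A if it is `Ω`-stable in `Diff^r`.

Proof (`f` satisfies Axiom A). The horseshoe of `g` contains periodic orbits which visit given disjoint
balls `B_1, ..., B_k` exactly at prescribed times with arbitrary gaps `≥ N₀` (`COD2`). So a small
perturbation of `F` which acts on the first factor over the balls only has periodic orbits which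
follow any closed network of orbit segments of `f`, of lengths `≥ N₀`, with small jumps and nearly
isometric linear maps at the jumps: all these products of derivatives are hyperbolic, by
`Ω`-stability. If `Df` has a nonzero bounded orbit of tangent vectors over the closure of the periodic
points, it tends to zero on both sides (otherwise there is an eigenvalue one); so the network has an
unstable loop, a stable loop and a connection along which the two eigenvectors are exchanged, and
closes up by a periodic orbit. The two loops have the same index by a comparison of characteristic
polynomials along the network (`IDX`), and then an eigenvalue one can be created (`CLO`). So there are no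
such orbits, and the closure of the periodic points is hyperbolic (`HYP`). Finally it contains
the nonwandering set of `f`: otherwise a perturbation off the periodic points creates new ones.
-/

set_option autoImplicit false

open scoped Manifold ContDiff Topology

universe u v w

namespace Pool.Agent.Results.MP_4a0782_an.ProductsAxiomA

open Pool.Agent.H718R2.G Pool.Agent.TH80.OMS Pool.Agent.H74.PA Pool.Agent.H74.PA.Hs

/-- Let `1 ≤ r ≤ ∞`, let `F = f × g ∈ Diff^r(N)` be an `Ω`-stable product of `C^r` diffeomorphisms of
closed manifolds `M`, `L`. If `g` has a horseshoe (`HasHorseshoe g`) then `f`, which is ARBITRARY, satisfies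
Axiom A. If moreover `g` satisfies Axiom A, or if `f` has a horseshoe, too, then `F` satisfies Axiom A. -/
theorem result {m l n : ℕ} {M : Type u} [TopologicalSpace M] [T2Space M] [CompactSpace M]
    [ChartedSpace (V m) M] [IsManifold (𝓡 m) ∞ M]
    {L : Type v} [TopologicalSpace L] [T2Space L] [CompactSpace L] [ChartedSpace (V l) L]
    [IsManifold (𝓡 l) ∞ L] {N : Type w} [TopologicalSpace N] [T2Space N] [CompactSpace N]
    [ChartedSpace (V n) N] [IsManifold (𝓡 n) ∞ N] {r : ℕ∞} (hr : 1 ≤ r) {F : DiffM n N r}
    (hF : OmegaStable n N r F) {f : DiffM m M r} {g : DiffM l L r} (hp : IsProduct F f g)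
    (hg : HasHorseshoe g) : SatAxiomA f ∧ (SatAxiomA g ∨ HasHorseshoe f → SatAxiomA F) :=
  Fin.both hr hF hp hg

end Pool.Agent.Results.MP_4a0782_an.ProductsAxiomA
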