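import Pool.Agent.H66.ST.FinA

/-!
# Stable affine torus extensions of limits of gradient-like diffeomorphisms satisfy Axiom A

Definitions: `AsymPO`, `GradLike` in `Pool/Agent/H66/GL/Def.lean`; `Coord`, `LimitOf` in
`Pool/Agent/H66/GL/Stm.lean`; `AffineExtension` in `Pool/Agent/H66/GL/StmA.lean`; the torus `Tor k`
with its charts in `Pool/Agent/H66/TM/Def.lean`, `lin` in `Pool/Agent/H66/TM/Lin.lean`; `Omega`,
`OmegaStable`, `Per` in `Pool/Agent/H66/L/S8/TH80/OMS/Defs.lean`, `SymDefs.lean`; `IsHyperbolic`,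
`AxiomA` in `Pool/Agent/H66/L/T9f66d723/W5h63/AX/Defs.lean`; `DiffM`, `strongTop` in
`Pool/Agent/H66/L/S8/H718R2/G0.lean`.

Starting theorems used: project CO (helper504 and others), the library's theorem on stable affine
maps of tori (`X183/PC`), `R773/TE/Hyp` (periodic points of the base); project PROD (helper72,
helper74): a closed invariant set with dense periodic points and without bounded orbits of tangent
vectors is hyperbolic.
-/

set_option autoImplicit false

open scoped Manifold ContDiff Topology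
open Function Set

universe u v

namespace Pool.Agent.Results.MP_4a0782_an.StableAffineExtensions

open Pool.Agent.H718R2.G Pool.Agent.H66.GL Pool.Agent.H66.GL.Stm Pool.Agent.H66.TM
open Pool.Agent.TH80.OMS
open Pool.Agent.W5h63.AX (AxiomA)

/-- `F` is structurally stable in `Diff^r(N)`: all `G` in a neighbourhood of `F` are topologically
conjugate to `F`. -/
def StructStable (n : ℕ) (N : Type u) [TopologicalSpace N] [ChartedSpace (V n) N] (r : ℕ∞)
    (F : DiffM n N r) : Prop :=
  ∃ U : Set (DiffM n N r), IsOpen[strongTop n N r] U ∧ F ∈ U ∧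
    ∀ G ∈ U, ∃ h : N ≃ₜ N, ∀ x, h (F x) = G (h x)

/-- no eigenvalue of the integral matrix `A` has modulus one -/
def NoUnitEigenvalue {k : ℕ} (A : Matrix (Fin k) (Fin k) ℤ) : Prop :=
  ∀ μ : ℂ, (A.map (Int.cast : ℤ → ℂ)).charpoly.IsRoot μ → ‖μ‖ ≠ 1

/-- `f` has finitely many periodic points, and the nonwandering set of `F` is the union of the
fibres over them. -/
def FibresOverPeriodic {n d k : ℕ} {N : Type u} [TopologicalSpace N] [ChartedSpace (V n) N]
    {B : Type v} [TopologicalSpace B] [ChartedSpace (V d) B] (Θ : Coord n d k N B (Tor k))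
    (F : N → N) (f : B → B) : Prop :=
  (periodicPts f).Finite ∧ Omega F = {x | (Θ.symm x).1 ∈ periodicPts f}

/-- Let `1 ≤ r ≤ ∞`, let `N`, `B` be nonempty closed manifolds and `Θ : B × 𝕋^k → N` a
diffeomorphism, and let `f` be a limit in `Diff^r(B)` of gradient-like diffeomorphisms. If
`F ∈ Diff^r(N)` is an affine torus extension `(b, y) ↦ (f b, A y + c(b))` of `f`, with any integral
matrix `A`, and `F` is structurally stable or `Ω`-stable, then `F` satisfies Axiom A. Moreover no
eigenvalue of `A` has modulus one, `f` has finitely many periodic points, and `Ω(F)` is the union of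
the fibres over them. -/
theorem result (n d k : ℕ) (N : Type u) [TopologicalSpace N] [T2Space N] [CompactSpace N]
    [ChartedSpace (V n) N] [IsManifold (𝓡 n) ∞ N]
    (B : Type v) [Nonempty B] [TopologicalSpace B] [T2Space B] [CompactSpace B]
    [ChartedSpace (V d) B] [IsManifold (𝓡 d) ∞ B] (Θ : Coord n d k N B (Tor k))
    (r : ℕ∞) (hr : 1 ≤ r) (F : DiffM n N r) (f : DiffM d B r) (A : Matrix (Fin k) (Fin k) ℤ)
    (hF : AffineExtension Θ A F f) (hf : LimitOf GradLike f)
    (hS : StructStable n N r F ∨ OmegaStable n N r F) :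
    AxiomA n F F.symm ∧ NoUnitEigenvalue A ∧ FibresOverPeriodic Θ F f := by
  have h : OmegaStable n N r F := by
    rcases hS with ⟨U, hU, hFU, h⟩ | h
    · refine ⟨U, hU, hFU, fun G hG => ?_⟩
      obtain ⟨e, he⟩ := h G hG
      exact Pool.Agent.Y504.CO.omegaConj_of_conj e he
    · exact h
  obtain ⟨c, hc⟩ := hF
  obtain ⟨h1, h2, -, h3⟩ := Pool.Agent.H66.ST.stable_top hr hc h hf
  refine ⟨Pool.Agent.H66.ST.stable_axiomA hr hc h hf, ?_, h2, h3⟩
  intro μ hμ
  refine h1 μ ?_
  have e1 : ((A.map (Int.cast : ℤ → ℝ)).map (algebraMap ℝ ℂ)) = A.map (Int.cast : ℤ → ℂ) := by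
    ext i j
    simp
  unfold Pool.Agent.H66.ST.LW
  rw [Matrix.charpoly_toLin', ← Matrix.charpoly_map, e1]
  exact hμ

end Pool.Agent.Results.MP_4a0782_an.StableAffineExtensions
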