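import Pool.Agent.H66.GL.Fin
import Pool.Agent.H66.GL.Cir
import Pool.Agent.H66.GL.Mon
import Pool.Agent.H66.GL.Stm
import Pool.Agent.H66.ST.Fin

/-!
# Stable mixed towers of skew products over limits of gradient-like diffeomorphisms

Definitions: `AsymPO`, `GradLike` in `Pool/Agent/H66/GL/Def.lean`; `Coord`, `LimitOf` in
`Pool/Agent/H66/GL/Stm.lean`; `CompactAbelian` in
`Pool/Agent/H66/L/T64922ed1/X84/Pm/Defs.lean`; the torus `Tor k` with its charts in `Pool/Agent/H66/TM/Def.lean`,
`cir`, `IsCircleLift` in `Pool/Agent/H66/TM/CirDef.lean`; `Omega`, `OmegaStable`, `Per` in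
`Pool/Agent/H66/L/S8/TH80/OMS/Defs.lean`, `SymDefs.lean`; `DiffM`, `strongTop` in
`Pool/Agent/H66/L/S8/H718R2/G0.lean`.

Starting theorems used: project CO (helper504 and others), `Q182/CC1`, `CC2` (helper182).
-/

set_option autoImplicit false

open scoped Manifold ContDiff Topology
open Function Set

universe u v w

namespace Pool.Agent.Results.MP_4a0782_an.StableCircleExtensions

open Pool.Agent.H718R2.G Pool.Agent.X84.Pm Pool.Agent.H66.GL Pool.Agent.H66.GL.Stm
open Pool.Agent.H66.TM Pool.Agent.TH80.OMS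

/-- In the coordinates `Θ : B × ℝ/ℤ → N` the map `F` is a skew product over `f` whose fibre maps
preserve the orientation of the circle: they have the continuous, strictly increasing lifts `φ b`
with `φ b (t + 1) = φ b t + 1`. -/
def CircleExtension {n d : ℕ} {N : Type u} [TopologicalSpace N] [ChartedSpace (V n) N]
    {B : Type v} [TopologicalSpace B] [ChartedSpace (V d) B]
    (Θ : Coord n d 1 N B (Tor 1)) (F : N → N) (f : B → B) : Prop :=
  ∃ φ : B → ℝ → ℝ, (∀ b, IsCircleLift (φ b)) ∧ ∀ b t, F (Θ (b, cir t)) = Θ (f b, cir (φ b t))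

/-- In the coordinates `Θ : B × K → N` the map `F` is a skew product `(b, y) ↦ (f b, R_b y)`, and
all compositions of the fibre maps `R_b` are elements of compact abelian groups of `C^∞`
diffeomorphisms of `K`. -/
def IsometricExtension {n d l : ℕ} {N : Type u} [TopologicalSpace N] [ChartedSpace (V n) N]
    {B : Type v} [TopologicalSpace B] [ChartedSpace (V d) B]
    {K : Type w} [TopologicalSpace K] [ChartedSpace (V l) K]
    (Θ : Coord n d l N B K) (F : N → N) (f : B → B) : Prop :=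
  ∃ (R : B → K → K) (𝒢 : Set (K → K)), (∀ b y, F (Θ (b, y)) = Θ (f b, R b y)) ∧
    (∀ b, R b ∈ 𝒢) ∧ (∀ S ∈ 𝒢, ∀ S' ∈ 𝒢, S ∘ S' ∈ 𝒢) ∧ ∀ S ∈ 𝒢, CompactAbelian (V l) S

/-- `h` is a `C^∞` function with finitely many critical points. -/
def FinCrit (l : ℕ) {K : Type w} [TopologicalSpace K] [ChartedSpace (V l) K] (h : K → ℝ) : Prop :=
  ContMDiff (𝓡 l) 𝓘(ℝ, ℝ) ∞ h ∧ {z | mfderiv (𝓡 l) 𝓘(ℝ, ℝ) h z = 0}.Finite

/-- In the coordinates `Θ : B × K → N` the map `F` is a skew product `(b, y) ↦ (f b, R_b y)`, and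
`h (R_b y) ≥ h y` for a `C^∞` function `h` on `K` with finitely many critical points. -/
def MonotoneExtension {n d l : ℕ} {N : Type u} [TopologicalSpace N] [ChartedSpace (V n) N]
    {B : Type v} [TopologicalSpace B] [ChartedSpace (V d) B]
    {K : Type w} [TopologicalSpace K] [ChartedSpace (V l) K]
    (Θ : Coord n d l N B K) (F : N → N) (f : B → B) : Prop :=
  ∃ (h : K → ℝ) (R : B → K → K), FinCrit l h ∧ (∀ b y, F (Θ (b, y)) = Θ (f b, R b y)) ∧
    ∀ b y, h y ≤ h (R b y)

/-- For a closed manifold `K` and a diffeomorphism `B × K → N` the map `F` is an isometric or a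
monotone extension of `f`. -/
def FibreExtension (n d : ℕ) {N B : Type u} [TopologicalSpace N] [ChartedSpace (V n) N]
    [TopologicalSpace B] [ChartedSpace (V d) B] (F : N → N) (f : B → B) : Prop :=
  ∃ (l : ℕ) (K : Type u) (_ : TopologicalSpace K) (_ : T2Space K) (_ : CompactSpace K)
    (_ : ChartedSpace (V l) K) (_ : IsManifold (𝓡 l) ∞ K) (Θ : Coord n d l N B K),
    IsometricExtension Θ F f ∨ MonotoneExtension Θ F f

/-- In the coordinates of some diffeomorphism `B × ℝ/ℤ → N` or `B × K → N`, `K` a closed manifold,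
the map `F` is an extension of `f` of one of the three kinds. -/
def Extension (n d : ℕ) {N B : Type u} [TopologicalSpace N] [ChartedSpace (V n) N]
    [TopologicalSpace B] [ChartedSpace (V d) B] (F : N → N) (f : B → B) : Prop :=
  (∃ Θ : Coord n d 1 N B (Tor 1), CircleExtension Θ F f) ∨ FibreExtension n d F f

/-- The extensions of a `C^r` limit of gradient-like diffeomorphisms are such limits. -/
theorem limit_ext {n d : ℕ} {N B : Type u} [TopologicalSpace N] [T2Space N] [CompactSpace N]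
    [ChartedSpace (V n) N] [IsManifold (𝓡 n) ∞ N]
    [TopologicalSpace B] [T2Space B] [CompactSpace B] [ChartedSpace (V d) B]
    [IsManifold (𝓡 d) ∞ B] {r : ℕ∞} (hr : 1 ≤ r) {F : DiffM n N r} {f : DiffM d B r}
    (hF : Extension n d F f) (hf : LimitOf GradLike f) : LimitOf GradLike F := by
  rcases hF with ⟨Θ, φ, hφ, h1⟩ |
    ⟨l, K, _, _, _, _, _, Θ, ⟨R, 𝒢, hR, h3, h1, h2⟩ | ⟨h, R, ⟨hh, hc⟩, hR, hm⟩⟩
  · exact near_circle Θ hr hφ h1 hf
  · obtain ⟨hcov, hfib⟩ := ext_coord Θ F f R hR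
    exact near_gradLike Θ hr hcov h1 (fun b => by rw [hfib]; exact h3 b)
      (fun S hS => pb_compactAbelian (h2 S hS)) hf
  · obtain ⟨hcov, hfib⟩ := ext_coord Θ F f R hR
    exact near_gradLike Θ hr hcov
      (𝒢 := {S : K → K | Continuous S ∧ Injective S ∧ ∀ x, h x ≤ h (S x)})
      (fun S hS S' hS' => ⟨hS.1.comp hS'.1, hS.2.1.comp hS'.2.1,
        fun x => (hS'.2.2 x).trans (hS.2.2 _)⟩)
      (fun b => by
        rw [hfib]
        obtain ⟨h1, h2⟩ := fibre_cont Θ F f R hR b
        exact ⟨h1, h2, hm b⟩)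
      (fun S hS => pb_monotone hh hc hS.1 hS.2.1 hS.2.2) hf

/-- `F` is structurally stable in `Diff^r(N)`: all `G` in a neighbourhood of `F` are topologically
conjugate to `F`. -/
def StructStable (n : ℕ) (N : Type u) [TopologicalSpace N] [ChartedSpace (V n) N] (r : ℕ∞)
    (F : DiffM n N r) : Prop :=
  ∃ U : Set (DiffM n N r), IsOpen[strongTop n N r] U ∧ F ∈ U ∧
    ∀ G ∈ U, ∃ h : N ≃ₜ N, ∀ x, h (F x) = G (h x)

/-- `p` is a hyperbolic periodic point of `F`: `F^m(p) = p` for some `m ≥ 1`, and for every such `m`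
and every chart `ψ` at `p` no eigenvalue of the derivative `D` of `F^m` at `p` has modulus one. -/
def IsHyperbolicPer (n : ℕ) {N : Type u} [TopologicalSpace N] [ChartedSpace (V n) N]
    (F : N → N) (p : N) : Prop :=
  p ∈ Per F ∧ ∀ m : ℕ, 1 ≤ m → F^[m] p = p → ∀ ψ ∈ IsManifold.maximalAtlas (𝓡 n) ∞ N,
    p ∈ ψ.source → ∃ D : V n →L[ℝ] V n, HasFDerivAt (fun v => ψ (F^[m] (ψ.symm v))) D (ψ p) ∧
      ∀ μ : ℂ, ((LinearMap.charpoly (D : V n →ₗ[ℝ] V n)).map (algebraMap ℝ ℂ)).IsRoot μ → ‖μ‖ ≠ 1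

/-- Let `1 ≤ r ≤ ∞`, let `N 0, …, N k` be closed manifolds and let `F i ∈ Diff^r(N i)` be such that for
each `i < k` the map `F (i + 1)` is an extension of `F i`: `N (i + 1)` is diffeomorphic to
`N i × ℝ/ℤ` and `F (i + 1)` is any skew product over `F i` which preserves the orientation of the
circles, or `N (i + 1)` is diffeomorphic to `N i × K`, `K` a closed manifold, and `F (i + 1)` is an
isometric or a monotone extension of `F i`; let `F 0` be a limit in `Diff^r(N 0)` of gradient-like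
diffeomorphisms. If `F k` is structurally stable or `Ω`-stable, then `F k` satisfies
Axiom A: `Ω(F k)` is finite and consists of hyperbolic periodic points. (Only the `N i`, `F i` with
`i ≤ k` matter.) -/
theorem result (r : ℕ∞) (hr : 1 ≤ r) (k : ℕ) (n : ℕ → ℕ) (N : ℕ → Type u)
    [∀ i, TopologicalSpace (N i)] [∀ i, T2Space (N i)] [∀ i, CompactSpace (N i)]
    [∀ i, ChartedSpace (V (n i)) (N i)] [∀ i, IsManifold (𝓡 (n i)) ∞ (N i)]
    (F : ∀ i, DiffM (n i) (N i) r)
    (hF : ∀ i, i < k → Extension (n (i + 1)) (n i) (F (i + 1)) (F i))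
    (hf : LimitOf GradLike (F 0))
    (hS : StructStable (n k) (N k) r (F k) ∨ OmegaStable (n k) (N k) r (F k)) :
    (Omega (F k)).Finite ∧ ∀ p ∈ Omega (F k), IsHyperbolicPer (n k) (F k) p := by
  have h : OmegaStable (n k) (N k) r (F k) := by
    rcases hS with ⟨U, hU, hFU, h⟩ | h
    · refine ⟨U, hU, hFU, fun G hG => ?_⟩
      obtain ⟨e, he⟩ := h G hG
      exact Pool.Agent.Y504.CO.omegaConj_of_conj e he
    · exact h
  have hlim : ∀ i, i ≤ k → LimitOf GradLike (F i) := by
    intro i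
    induction i with
    | zero => exact fun _ => hf
    | succ i ih => exact fun hi => limit_ext hr (hF i hi) (ih (by omega))
  exact Pool.Agent.H66.ST.stable_near hr h (hlim k le_rfl)

end Pool.Agent.Results.MP_4a0782_an.StableCircleExtensions
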